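import Mathlib

/-!
# Rokhlin entropy is not additive for atomic actions

For an ergodic probability measure preserving action of a countable group `G` on `(X, μ)` and a factor
`Y` with σ-algebra `Σ`, Q1 asks whether `h(X, μ) = h_{G,X}(Y) + h(X, μ | Σ)` (Rokhlin entropy, outer
Rokhlin entropy, relative Rokhlin entropy). This fails for every transitive action on a finite set `X`
with `n` points and every factor `Y` which is neither trivial nor isomorphic to `X`: the partition
`{x}, X \ {x}` generates, and every nontrivial partition has at least its entropy, so that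
`h(X, μ) = h_{G,X}(Y) = H(1/n, 1 - 1/n)`, but `h(X, μ | Σ) ≥ 1 / n ^ 3 > 0`. Example: `ℤ` acting on
`ℤ / 4` by translations, `Y = ℤ / 2`.
-/

set_option autoImplicit false

open MeasureTheory Filter
open scoped ENNReal

namespace Pool.Agent.Results.MP_0393a7_an.AtomicCounterexample

/-- A countable Borel partition of `X` is given by a measurable map `α : X → ℕ`; its cells are the sets
`α ⁻¹' {n}` (some of them may be empty). `H(α) = - ∑ μ(A) log μ(A)`. -/
noncomputable def entropy {X : Type} [MeasurableSpace X] (μ : Measure X) (α : X → ℕ) : ℝ≥0∞ :=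
  ∑' n, ENNReal.ofReal (Real.negMulLog (μ.real (α ⁻¹' {n})))

/-- `H(α | 𝓕) = ∫ - ∑ μ(A | 𝓕) log μ(A | 𝓕) dμ`. -/
noncomputable def condEntropy {X : Type} (𝓕 : MeasurableSpace X) [mX : MeasurableSpace X]
    (μ : Measure X) (α : X → ℕ) : ℝ≥0∞ :=
  ∫⁻ x, ∑' n, ENNReal.ofReal (Real.negMulLog
    ((μ[(α ⁻¹' {n}).indicator (fun _ => (1 : ℝ)) | 𝓕]) x)) ∂μ

/-- `σ-alg_G(α)`: the σ-algebra generated by the translates of the cells of `α`. -/
def orbitAlg (G : Type) [Group G] {X : Type} [MulAction G X] (α : X → ℕ) : MeasurableSpace X :=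
  ⨆ g : G, MeasurableSpace.comap (fun x => α (g • x)) ⊤

/-- `𝓐 ⊆ 𝓑` modulo null sets. -/
def SubMod {X : Type} (𝓐 𝓑 : MeasurableSpace X) [mX : MeasurableSpace X] (μ : Measure X) : Prop :=
  ∀ s, MeasurableSet[𝓐] s → ∃ t, MeasurableSet[𝓑] t ∧ s =ᵐ[μ] t

/-- Rokhlin entropy `inf {H(α) : σ-alg_G(α) = 𝓑_X}`. -/
noncomputable def rokhlin (G : Type) [Group G] {X : Type} [MulAction G X] [mX : MeasurableSpace X]
    (μ : Measure X) : ℝ≥0∞ :=
  ⨅ (α : X → ℕ) (_ : Measurable α) (_ : SubMod mX (orbitAlg G α) μ), entropy μ α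

/-- Relative Rokhlin entropy `inf {H(α | 𝓕) : σ-alg_G(α) ∨ 𝓕 = 𝓑_X}`. -/
noncomputable def relRokhlin (G : Type) [Group G] {X : Type} [MulAction G X]
    (𝓕 : MeasurableSpace X) [mX : MeasurableSpace X] (μ : Measure X) : ℝ≥0∞ :=
  ⨅ (α : X → ℕ) (_ : Measurable α) (_ : SubMod mX (orbitAlg G α ⊔ 𝓕) μ), condEntropy 𝓕 μ α

/-- Outer Rokhlin entropy `inf {H(α) : 𝓕 ⊆ σ-alg_G(α)}`. -/
noncomputable def outerRokhlin (G : Type) [Group G] {X : Type} [MulAction G X]
    (𝓕 : MeasurableSpace X) [mX : MeasurableSpace X] (μ : Measure X) : ℝ≥0∞ :=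
  ⨅ (α : X → ℕ) (_ : Measurable α) (_ : SubMod 𝓕 (orbitAlg G α) μ), entropy μ α

/-- `π : (X, μ) → (Y, ν)` is a factor map of `G`-actions. -/
structure IsFactor (G : Type) [Group G] {X Y : Type} [MulAction G X] [MulAction G Y]
    [MeasurableSpace X] [MeasurableSpace Y] (μ : Measure X) (ν : Measure Y) (π : X → Y) : Prop where
  measurable : Measurable π
  equivariant : ∀ (g : G) (x : X), π (g • x) = g • π x
  map_eq : μ.map π = ν

/-- The statement of Q1: for every countable group `G`, every ergodic probability measure preserving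
action on a standard Borel space and every factor, with `Σ = π⁻¹(𝓑_Y)`,
`h(X, μ) = h_{G,X}(Y) + h(X, μ | Σ)`. -/
def Q1 : Prop :=
  ∀ (G : Type) [Group G] [Countable G] (X Y : Type) [MulAction G X] [MulAction G Y]
    [mX : MeasurableSpace X] [StandardBorelSpace X] [mY : MeasurableSpace Y] [StandardBorelSpace Y]
    [MeasurableConstSMul G X] [MeasurableConstSMul G Y] (μ : Measure X) [IsProbabilityMeasure μ]
    [ErgodicSMul G X μ] (ν : Measure Y) (π : X → Y), IsFactor G μ ν π →
    rokhlin G μ = outerRokhlin G (mY.comap π) μ + relRokhlin G (mY.comap π) μ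

section finite

variable {G : Type} [Group G] {X : Type} [mX : MeasurableSpace X] [MulAction G X] [Fintype X]
  [DecidableEq X] [DiscreteMeasurableSpace X] [MulAction.IsPretransitive G X] (μ : Measure X)
  [IsProbabilityMeasure μ] [SMulInvariantMeasure G X μ]

include G in
theorem pt (x y : X) : μ {x} = μ {y} := by
  obtain ⟨g, hg⟩ := MulAction.exists_smul_eq G x y
  have h := measure_preimage_smul (μ := μ) g ({y} : Set X)
  rw [← h]
  congr 1
  ext z
  simp only [Set.mem_singleton_iff, Set.mem_preimage]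
  constructor
  · rintro rfl; exact hg
  · intro hz
    rw [← hg] at hz
    exact (MulAction.injective g hz).symm ▸ rfl

include G in
theorem ptr (x : X) : μ.real {x} = 1 / Fintype.card X := by
  have h1 : ∑ y : X, μ.real {y} = 1 := by
    have h2 := MeasureTheory.measureReal_biUnion_finset (μ := μ) (s := (Finset.univ : Finset X))
      (f := fun y => ({y} : Set X)) (fun a _ b _ hab => by
        simpa using hab) (fun y _ => MeasurableSet.singleton y)
    have h3 : (⋃ b ∈ (Finset.univ : Finset X), ({b} : Set X)) = Set.univ := by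
      ext; simp
    rw [h3] at h2
    rw [← h2]
    simp
  have h2 : ∀ y : X, μ.real {y} = μ.real {x} := fun y => by
    unfold Measure.real
    rw [pt (G := G) μ y x]
  rw [Finset.sum_congr rfl (fun y _ => h2 y), Finset.sum_const, Finset.card_univ, nsmul_eq_mul] at h1
  have h4 : (Fintype.card X : ℝ) ≠ 0 := by
    intro h0
    rw [h0, zero_mul] at h1
    exact zero_ne_one h1
  field_simp
  linarith

include G in
theorem real_eq (s : Finset X) : μ.real (s : Set X) = s.card / Fintype.card X := by
  have h2 := MeasureTheory.measureReal_biUnion_finset (μ := μ) (s := s)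
      (f := fun y => ({y} : Set X)) (fun a _ b _ hab => by
        simpa using hab) (fun y _ => MeasurableSet.singleton y)
  have h3 : (⋃ b ∈ s, ({b} : Set X)) = (s : Set X) := by
    ext; simp
  rw [h3] at h2
  rw [h2, Finset.sum_congr rfl (fun y _ => ptr (G := G) μ y), Finset.sum_const, nsmul_eq_mul]
  ring

end finite

theorem sum_le (S : Finset ℕ) (p : ℕ → ℝ) (hp : ∀ k ∈ S, 0 ≤ p k) (hs : ∑ k ∈ S, p k = 1) (a : ℕ)
    (ha : a ∈ S) : Real.binEntropy (p a) ≤ ∑ k ∈ S, Real.negMulLog (p k) := by
  rw [Real.binEntropy_eq_negMulLog_add_negMulLog_one_sub, ← Finset.add_sum_erase S _ ha]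
  have h1 : ∑ k ∈ S.erase a, p k = 1 - p a := by
    rw [← hs, ← Finset.add_sum_erase S _ ha]; ring
  have h2 : Real.negMulLog (1 - p a) ≤ ∑ k ∈ S.erase a, Real.negMulLog (p k) := by
    rw [← h1]
    set s := ∑ k ∈ S.erase a, p k with hsdef
    have h3 : Real.negMulLog s = ∑ k ∈ S.erase a, (-(p k) * Real.log s) := by
      unfold Real.negMulLog
      rw [hsdef, ← Finset.sum_mul, Finset.sum_neg_distrib]
    rw [h3]
    refine Finset.sum_le_sum fun k hk => ?_
    unfold Real.negMulLog
    have hk0 : 0 ≤ p k := hp k (Finset.mem_of_mem_erase hk)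
    have hks : p k ≤ s := Finset.single_le_sum
      (fun j hj => hp j (Finset.mem_of_mem_erase hj)) hk
    rcases hk0.eq_or_lt with h0 | h0
    · rw [← h0]; simp
    · have := Real.log_le_log h0 hks
      nlinarith
  linarith

theorem bin_le (n a : ℕ) (ha : 1 ≤ a) (han : a < n) :
    Real.binEntropy (1 / n) ≤ Real.binEntropy (a / n) := by
  have hn : (0 : ℝ) < n := by exact_mod_cast (by omega : 0 < n)
  have ha' : (1 : ℝ) ≤ a := by exact_mod_cast ha
  have han' : (a : ℝ) + 1 ≤ n := by exact_mod_cast han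
  have key : ∀ p : ℝ, 1 / (n : ℝ) ≤ p → p ≤ 2⁻¹ →
      Real.binEntropy (1 / n) ≤ Real.binEntropy p := by
    intro p h1 h2
    refine Real.binEntropy_strictMonoOn.monotoneOn ⟨by positivity, h1.trans h2⟩
      ⟨le_trans (by positivity) h1, h2⟩ h1
  rcases le_total ((a : ℝ) / n) 2⁻¹ with h | h
  · exact key _ (by gcongr) h
  · rw [← Real.binEntropy_one_sub ((a : ℝ) / n)]
    refine key _ ?_ (by linarith)
    rw [le_sub_iff_add_le, ← add_div, div_le_one hn]
    linarith

section finite2

variable {G : Type} [Group G] {X : Type} [mX : MeasurableSpace X] [MulAction G X] [Fintype X]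
  [DecidableEq X] [DiscreteMeasurableSpace X] [MulAction.IsPretransitive G X] (μ : Measure X)
  [IsProbabilityMeasure μ] [SMulInvariantMeasure G X μ]

include G in
theorem ae_imp (s t : Set X) (h : s =ᵐ[μ] t) : s = t := by
  ext x
  by_contra hx
  have h1 : μ {x} ≠ 0 := by
    intro h0
    have h2 := ptr (G := G) μ x
    unfold Measure.real at h2
    rw [h0] at h2
    have h3 : (0 : ℝ) < 1 / Fintype.card X := by
      have : 0 < Fintype.card X := Fintype.card_pos_iff.2 ⟨x⟩
      positivity
    rw [ENNReal.toReal_zero] at h2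
    rw [← h2] at h3
    exact lt_irrefl _ h3
  have h2 := h
  rw [Filter.eventuallyEq_set, ae_iff] at h2
  exact h1 (measure_mono_null (fun y hy => by
    rw [Set.mem_singleton_iff] at hy
    rw [hy]
    exact hx) h2)

include G in
/-- a partition which is not trivial has entropy at least that of `1 / n, 1 - 1 / n` -/
theorem entropy_ge (α : X → ℕ) (x₁ x₂ : X) (h : α x₁ ≠ α x₂) :
    ENNReal.ofReal (Real.binEntropy (1 / Fintype.card X)) ≤ entropy μ α := by
  classical
  set S : Finset ℕ := Finset.univ.image α with hS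
  have hreal : ∀ k, μ.real (α ⁻¹' {k}) =
      ((Finset.univ.filter fun x => α x = k).card : ℝ) / Fintype.card X := by
    intro k
    rw [← real_eq (G := G) μ]
    congr 1
    ext x; simp
  have hsum : ∑ k ∈ S, μ.real (α ⁻¹' {k}) = 1 := by
    have h1 : ∑ k ∈ S, (Finset.univ.filter fun x => α x = k).card = Fintype.card X := by
      rw [← Finset.card_univ]
      exact (Finset.card_eq_sum_card_image α Finset.univ).symm
    have hn : (Fintype.card X : ℝ) ≠ 0 := by
      have : 0 < Fintype.card X := Fintype.card_pos_iff.2 ⟨x₁⟩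
      positivity
    rw [Finset.sum_congr rfl (fun k _ => hreal k), ← Finset.sum_div, div_eq_one_iff_eq hn]
    exact_mod_cast h1
  have hmem : α x₁ ∈ S := Finset.mem_image_of_mem _ (Finset.mem_univ _)
  have h2 := sum_le S (fun k => μ.real (α ⁻¹' {k})) (fun k _ => measureReal_nonneg) hsum (α x₁) hmem
  have h3 : Real.binEntropy (1 / Fintype.card X) ≤ Real.binEntropy (μ.real (α ⁻¹' {α x₁})) := by
    rw [hreal]
    refine bin_le _ _ ?_ ?_
    · exact Finset.card_pos.2 ⟨x₁, by simp⟩
    · refine (Finset.card_lt_univ_of_notMem (x := x₂) ?_)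
      simp only [Finset.mem_filter, Finset.mem_univ, true_and]
      exact fun h' => h h'.symm
  unfold entropy
  calc ENNReal.ofReal (Real.binEntropy (1 / Fintype.card X))
      ≤ ENNReal.ofReal (∑ k ∈ S, Real.negMulLog (μ.real (α ⁻¹' {k}))) :=
        ENNReal.ofReal_le_ofReal (h3.trans h2)
    _ = ∑ k ∈ S, ENNReal.ofReal (Real.negMulLog (μ.real (α ⁻¹' {k}))) :=
        ENNReal.ofReal_sum_of_nonneg fun k _ =>
          Real.negMulLog_nonneg measureReal_nonneg measureReal_le_one
    _ ≤ _ := ENNReal.sum_le_tsum S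

omit [Fintype X] [DecidableEq X] mX [DiscreteMeasurableSpace X] [MulAction.IsPretransitive G X] in
/-- the σ-algebra of a constant partition is trivial -/
theorem orbitAlg_const (α : X → ℕ) (x₀ : X) (h : ∀ x, α x = α x₀) : orbitAlg G α = ⊥ := by
  unfold orbitAlg
  rw [iSup_eq_bot]
  intro g
  have : (fun x => α (g • x)) = fun _ => α x₀ := funext fun x => h _
  rw [this, MeasurableSpace.comap_const]

end finite2

section finite3

variable {G : Type} [Group G] {X : Type} [mX : MeasurableSpace X] [MulAction G X] [Fintype X]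
  [DecidableEq X] [DiscreteMeasurableSpace X] [MulAction.IsPretransitive G X] (μ : Measure X)
  [IsProbabilityMeasure μ] [SMulInvariantMeasure G X μ]

theorem meas_all (𝓐 : MeasurableSpace X) (h : ∀ x : X, MeasurableSet[𝓐] {x}) (s : Set X) :
    MeasurableSet[𝓐] s := by
  have h1 : s = ⋃ x ∈ s, {x} := by ext; simp
  rw [h1]
  exact MeasurableSet.biUnion (m := 𝓐) (Set.toFinite s).countable fun x _ => h x

/-- the partition `{x₀}`, `X \ {x₀}` -/
def two (x₀ : X) : X → ℕ := fun x => if x = x₀ then 0 else 1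

theorem two_gen (x₀ : X) (s : Set X) : MeasurableSet[orbitAlg G (two x₀)] s := by
  refine meas_all _ (fun y => ?_) s
  obtain ⟨g, hg⟩ := MulAction.exists_smul_eq G y x₀
  have h1 : MeasurableSet[MeasurableSpace.comap (fun x => two x₀ (g • x)) ⊤] ({y} : Set X) := by
    refine ⟨{0}, trivial, ?_⟩
    ext z
    simp only [Set.mem_preimage, Set.mem_singleton_iff, two]
    constructor
    · intro h
      by_contra hz
      rw [if_neg] at h
      · exact one_ne_zero h
      · intro h2
        rw [← hg] at h2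
        exact hz (MulAction.injective g h2)
    · rintro rfl
      rw [if_pos hg]
  exact (le_iSup (fun g : G => MeasurableSpace.comap (fun x => two x₀ (g • x)) ⊤) g) _ h1

include G in
theorem two_entropy (x₀ : X) :
    entropy μ (two x₀) ≤ ENNReal.ofReal (Real.binEntropy (1 / Fintype.card X)) := by
  have h0 : two x₀ ⁻¹' {0} = ({x₀} : Set X) := by
    ext z; simp only [Set.mem_preimage, Set.mem_singleton_iff, two]
    split_ifs with h <;> simp [h]
  have h1 : two x₀ ⁻¹' {1} = ({x₀} : Set X)ᶜ := by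
    ext z; simp only [Set.mem_preimage, Set.mem_singleton_iff, two, Set.mem_compl_iff]
    split_ifs with h <;> simp [h]
  have h2 : ∀ k, k ∉ ({0, 1} : Finset ℕ) →
      ENNReal.ofReal (Real.negMulLog (μ.real (two x₀ ⁻¹' {k}))) = 0 := by
    intro k hk
    have : two x₀ ⁻¹' {k} = (∅ : Set X) := by
      ext z; simp only [Set.mem_preimage, Set.mem_singleton_iff, two, Set.mem_empty_iff_false,
        iff_false]
      simp only [Finset.mem_insert, Finset.mem_singleton, not_or] at hk
      split_ifs
      · exact fun h => hk.1 h.symm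
      · exact fun h => hk.2 h.symm
    rw [this]
    simp
  unfold entropy
  rw [tsum_eq_sum h2, Finset.sum_pair zero_ne_one, h0, h1, ← ENNReal.ofReal_add
    (Real.negMulLog_nonneg measureReal_nonneg measureReal_le_one)
    (Real.negMulLog_nonneg measureReal_nonneg measureReal_le_one)]
  refine ENNReal.ofReal_le_ofReal (le_of_eq ?_)
  rw [Real.binEntropy_eq_negMulLog_add_negMulLog_one_sub, measureReal_compl
    (MeasurableSet.singleton x₀), ptr (G := G) μ x₀]
  simp

include G in
theorem rokhlin_le (x₀ : X) :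
    rokhlin G μ ≤ ENNReal.ofReal (Real.binEntropy (1 / Fintype.card X)) := by
  unfold rokhlin
  refine (iInf_le_of_le (two x₀) (iInf_le_of_le (Measurable.of_discrete) (iInf_le_of_le ?_ ?_)))
  · intro s hs
    exact ⟨s, two_gen x₀ s, Filter.EventuallyEq.rfl⟩
  · exact two_entropy (G := G) μ x₀

variable {Y : Type} [mY : MeasurableSpace Y] [MeasurableSingletonClass Y] [MulAction G Y]

include G in
theorem outer_ge (π : X → Y) (x₁ x₂ : X) (h12 : π x₁ ≠ π x₂) :
    ENNReal.ofReal (Real.binEntropy (1 / Fintype.card X)) ≤ outerRokhlin G (mY.comap π) μ := by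
  unfold outerRokhlin
  refine le_iInf fun α => le_iInf fun hα => le_iInf fun hS => ?_
  by_cases hc : ∀ x, α x = α x₁
  · exfalso
    rw [orbitAlg_const (G := G) α x₁ hc] at hS
    obtain ⟨t, ht, hst⟩ := hS (π ⁻¹' {π x₁}) ⟨{π x₁}, MeasurableSet.singleton _, rfl⟩
    have h1 := ae_imp (G := G) μ _ _ hst
    rw [MeasurableSpace.measurableSet_bot_iff] at ht
    rcases ht with h | h
    · rw [h] at h1
      have : x₁ ∈ (∅ : Set X) := h1 ▸ (rfl : π x₁ = π x₁)
      exact this
    · rw [h] at h1
      have : x₂ ∈ π ⁻¹' {π x₁} := by rw [h1]; trivial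
      exact h12 this.symm
  · push Not at hc
    obtain ⟨x, hx⟩ := hc
    exact entropy_ge (G := G) μ α x x₁ hx

/-- the conditional probability of a set given the fibres of `π` -/
theorem condExp_fib (π : X → Y) (hπ : Measurable π) (s : Set X) (x₁ : X) :
    (μ[s.indicator (fun _ => (1 : ℝ)) | mY.comap π]) x₁ * μ.real (π ⁻¹' {π x₁}) =
      μ.real (s ∩ π ⁻¹' {π x₁}) := by
  have hle : mY.comap π ≤ mX := hπ.comap_le
  set f : X → ℝ := s.indicator (fun _ => (1 : ℝ)) with hf
  set A : Set X := π ⁻¹' {π x₁} with hA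
  have hAm : MeasurableSet[mY.comap π] A := ⟨{π x₁}, MeasurableSet.singleton _, rfl⟩
  have hint : Integrable f μ := (integrable_const (1 : ℝ)).indicator (MeasurableSet.of_discrete)
  have h1 := setIntegral_condExp hle hint hAm
  have h2 : ∀ x ∈ A, (μ[f | mY.comap π]) x = (μ[f | mY.comap π]) x₁ := by
    have h3 : StronglyMeasurable[mY.comap π] (μ[f | mY.comap π]) := stronglyMeasurable_condExp
    obtain ⟨T, hT, hTe⟩ := h3.measurable (measurableSet_singleton ((μ[f | mY.comap π]) x₁))
    intro x hx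
    have h4 : x₁ ∈ π ⁻¹' T := by rw [hTe]; rfl
    have h5 : x ∈ π ⁻¹' T := by
      have : π x = π x₁ := hx
      show π x ∈ T
      rw [this]; exact h4
    rw [hTe] at h5
    exact h5
  rw [setIntegral_congr_fun (MeasurableSet.of_discrete) h2, setIntegral_const, smul_eq_mul] at h1
  rw [mul_comm, h1, hf, setIntegral_indicator (MeasurableSet.of_discrete), setIntegral_const,
    smul_eq_mul, mul_one, Set.inter_comm]

include G in
theorem rel_ge (π : X → Y) (hπ : Measurable π) (hG : ∀ (g : G) x, π (g • x) = g • π x)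
    (y₁ y₂ : X) (hne : y₁ ≠ y₂) (h12 : π y₁ = π y₂) :
    ENNReal.ofReal (1 / (Fintype.card X : ℝ) ^ 3) ≤ relRokhlin G (mY.comap π) μ := by
  classical
  unfold relRokhlin
  refine le_iInf fun α => le_iInf fun hα => le_iInf fun hS => ?_
  have hn0 : 0 < Fintype.card X := Fintype.card_pos_iff.2 ⟨y₁⟩
  have hn : (0 : ℝ) < Fintype.card X := by exact_mod_cast hn0
  -- a fibre on which `α` is not constant
  obtain ⟨x₁, x₂, hx, hax⟩ : ∃ x₁ x₂, π x₁ = π x₂ ∧ α x₁ ≠ α x₂ := by
    by_contra hcon
    push Not at hcon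
    have hsub : orbitAlg G α ≤ mY.comap π := by
      unfold orbitAlg
      refine iSup_le fun g => ?_
      rintro s ⟨T, -, rfl⟩
      refine ⟨π '' ((fun x => α (g • x)) ⁻¹' T), ?_, ?_⟩
      · exact (Set.toFinite _).measurableSet
      · ext x
        constructor
        · rintro ⟨z, hz, hzx⟩
          show α (g • x) ∈ T
          have h1 : α (g • z) = α (g • x) := hcon _ _ (by rw [hG, hG, hzx])
          rw [← h1]; exact hz
        · intro hx
          exact ⟨x, hx, rfl⟩
    rw [sup_eq_right.2 hsub] at hS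
    obtain ⟨t, ⟨T, hT, rfl⟩, hst⟩ := hS {y₁} (MeasurableSet.singleton _)
    have h1 := ae_imp (G := G) μ _ _ hst
    have h2 : y₁ ∈ π ⁻¹' T := h1 ▸ rfl
    have h3 : y₂ ∈ π ⁻¹' T := by
      show π y₂ ∈ T
      rw [← h12]; exact h2
    rw [← h1] at h3
    exact hne h3.symm
  have hc := condExp_fib (mY := mY) μ π hπ (α ⁻¹' {α x₁}) x₁
  set c := (μ[(α ⁻¹' {α x₁}).indicator (fun _ => (1 : ℝ)) | mY.comap π]) x₁ with hcdef
  set A : Finset X := Finset.univ.filter fun x => π x = π x₁ with hAdef
  set B : Finset X := Finset.univ.filter fun x => α x = α x₁ ∧ π x = π x₁ with hBdef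
  have hA : μ.real (π ⁻¹' {π x₁}) = A.card / Fintype.card X := by
    rw [← real_eq (G := G) μ]
    congr 1
    ext x; simp [hAdef]
  have hB : μ.real (α ⁻¹' {α x₁} ∩ π ⁻¹' {π x₁}) = B.card / Fintype.card X := by
    rw [← real_eq (G := G) μ]
    congr 1
    ext x; simp [hBdef]
  rw [hA, hB] at hc
  have hBA : B.card < A.card := by
    refine Finset.card_lt_card ⟨fun x hx => ?_, fun hsub => ?_⟩
    · simp only [hBdef, hAdef, Finset.mem_filter, Finset.mem_univ, true_and] at hx ⊢
      exact hx.2
    · have h1 : x₂ ∈ A := by simp [hAdef, hx]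
      have h2 := hsub h1
      simp only [hBdef, Finset.mem_filter, Finset.mem_univ, true_and] at h2
      exact hax h2.1.symm
  have hB1 : 1 ≤ B.card := Finset.card_pos.2 ⟨x₁, by simp [hBdef]⟩
  have hAn : A.card ≤ Fintype.card X := Finset.card_le_univ _
  have hBr : (1 : ℝ) ≤ B.card := by exact_mod_cast hB1
  have hBAr : (B.card : ℝ) + 1 ≤ A.card := by exact_mod_cast hBA
  have hAnr : (A.card : ℝ) ≤ Fintype.card X := by exact_mod_cast hAn
  have hA0 : (0 : ℝ) < A.card := by linarith
  have hcv : c = B.card / A.card := by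
    field_simp at hc ⊢
    linarith
  have hc1 : 1 / (Fintype.card X : ℝ) ≤ c := by
    rw [hcv, div_le_div_iff₀ hn hA0]
    nlinarith
  have hc2 : 1 / (Fintype.card X : ℝ) ≤ 1 - c := by
    have : 1 - c = (A.card - B.card) / A.card := by rw [hcv]; field_simp
    rw [this, div_le_div_iff₀ hn hA0]
    nlinarith
  have hc0 : 0 < c := lt_of_lt_of_le (by positivity) hc1
  have hneg : 1 / (Fintype.card X : ℝ) ^ 2 ≤ Real.negMulLog c := by
    unfold Real.negMulLog
    have h1 := Real.log_le_sub_one_of_pos hc0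
    have h2 : (1 / (Fintype.card X : ℝ)) * (1 / (Fintype.card X : ℝ)) ≤ c * (1 - c) :=
      mul_le_mul hc1 hc2 (by positivity) hc0.le
    have h3 : 1 / (Fintype.card X : ℝ) ^ 2 = (1 / (Fintype.card X : ℝ)) * (1 / (Fintype.card X : ℝ)) := by
      field_simp
    rw [h3]
    nlinarith
  unfold condEntropy
  calc ENNReal.ofReal (1 / (Fintype.card X : ℝ) ^ 3)
      = ENNReal.ofReal (1 / (Fintype.card X : ℝ) ^ 2) * μ {x₁} := by
        have h1 : μ {x₁} = ENNReal.ofReal (1 / Fintype.card X) := by
          rw [← ptr (G := G) μ x₁]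
          unfold Measure.real
          rw [ENNReal.ofReal_toReal (measure_ne_top μ _)]
        rw [h1, ← ENNReal.ofReal_mul (by positivity)]
        congr 1
        field_simp
    _ ≤ ENNReal.ofReal (Real.negMulLog c) * μ {x₁} := by
        gcongr
    _ = ∫⁻ x in {x₁}, ENNReal.ofReal (Real.negMulLog
          ((μ[(α ⁻¹' {α x₁}).indicator (fun _ => (1 : ℝ)) | mY.comap π]) x)) ∂μ := by
        rw [lintegral_singleton]
    _ ≤ ∫⁻ x, ENNReal.ofReal (Real.negMulLog
          ((μ[(α ⁻¹' {α x₁}).indicator (fun _ => (1 : ℝ)) | mY.comap π]) x)) ∂μ :=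
        setLIntegral_le_lintegral _ _
    _ ≤ _ := lintegral_mono fun x => ENNReal.le_tsum (α x₁)

end finite3

/-- **Additivity fails for atomic actions.** -/
theorem atomic {G : Type} [Group G] {X Y : Type} [MulAction G X] [MulAction G Y] [Finite X]
    [mX : MeasurableSpace X] [DiscreteMeasurableSpace X] [mY : MeasurableSpace Y]
    [MeasurableSingletonClass Y] [MulAction.IsPretransitive G X]
    (μ : Measure X) [IsProbabilityMeasure μ] [SMulInvariantMeasure G X μ] (π : X → Y)
    (hG : ∀ (g : G) (x : X), π (g • x) = g • π x) (hnt : ∃ x x', π x ≠ π x')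
    (hni : ¬ Function.Injective π) :
    rokhlin G μ < outerRokhlin G (mY.comap π) μ + relRokhlin G (mY.comap π) μ := by
  classical
  have := Fintype.ofFinite X
  obtain ⟨x₁, x₂, h12⟩ := hnt
  obtain ⟨y₁, y₂, hy, hne⟩ : ∃ y₁ y₂, π y₁ = π y₂ ∧ y₁ ≠ y₂ := by
    unfold Function.Injective at hni
    push Not at hni
    exact hni
  have hπ : Measurable π := Measurable.of_discrete
  have h1 := rokhlin_le (G := G) μ x₁
  have h2 := outer_ge (G := G) μ π x₁ x₂ h12
  have h3 := rel_ge (G := G) μ π hπ hG y₁ y₂ hne hy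
  have hn : (0 : ℝ) < Fintype.card X := by
    have : 0 < Fintype.card X := Fintype.card_pos_iff.2 ⟨x₁⟩
    exact_mod_cast this
  have h4 : (0 : ℝ≥0∞) < ENNReal.ofReal (1 / (Fintype.card X : ℝ) ^ 3) :=
    ENNReal.ofReal_pos.2 (by positivity)
  calc rokhlin G μ ≤ ENNReal.ofReal (Real.binEntropy (1 / Fintype.card X)) := h1
    _ < ENNReal.ofReal (Real.binEntropy (1 / Fintype.card X)) +
        ENNReal.ofReal (1 / (Fintype.card X : ℝ) ^ 3) :=
        ENNReal.lt_add_right ENNReal.ofReal_ne_top h4.ne'
    _ ≤ _ := add_le_add h2 h3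

/-- transitive actions on finite spaces are ergodic -/
theorem ergodic {G : Type} [Group G] {X : Type} [MulAction G X] [Finite X]
    [mX : MeasurableSpace X] [DiscreteMeasurableSpace X] [MulAction.IsPretransitive G X]
    (μ : Measure X) [IsProbabilityMeasure μ] [SMulInvariantMeasure G X μ] : ErgodicSMul G X μ where
  aeconst_of_forall_preimage_smul_ae_eq := by
    classical
    have := Fintype.ofFinite X
    intro s _ hs
    rw [Filter.eventuallyConst_set']
    by_cases h : s = ∅
    · left; rw [h]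
    · right
      obtain ⟨x₀, hx₀⟩ := Set.nonempty_iff_ne_empty.2 h
      have : s = Set.univ := by
        ext x
        simp only [Set.mem_univ, iff_true]
        obtain ⟨g, hg⟩ := MulAction.exists_smul_eq G x x₀
        have h1 := ae_imp (G := G) μ _ _ (hs g)
        rw [← h1]
        show g • x ∈ s
        rw [hg]; exact hx₀
      rw [this]

/-- The action of `ℤ` on `ℤ / n` by translations. -/
@[reducible] def transl (n : ℕ) : MulAction (Multiplicative ℤ) (ZMod n) where
  smul k x := ((Multiplicative.toAdd k : ℤ) : ZMod n) + x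
  one_smul x := by
    show ((Multiplicative.toAdd (1 : Multiplicative ℤ) : ℤ) : ZMod n) + x = x
    simp
  mul_smul a b x := by
    show ((Multiplicative.toAdd (a * b) : ℤ) : ZMod n) + x =
      ((Multiplicative.toAdd a : ℤ) : ZMod n) + (((Multiplicative.toAdd b : ℤ) : ZMod n) + x)
    rw [toAdd_mul]
    push_cast
    ring

theorem not_Q1 : ¬ Q1 := by
  intro hQ
  letI iX := transl 4
  letI iY := transl 2
  letI mX : MeasurableSpace (ZMod 4) := ⊤
  letI mY : MeasurableSpace (ZMod 2) := ⊤
  haveI dX : DiscreteMeasurableSpace (ZMod 4) := ⟨fun _ => trivial⟩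
  haveI dY : DiscreteMeasurableSpace (ZMod 2) := ⟨fun _ => trivial⟩
  haveI tr : MulAction.IsPretransitive (Multiplicative ℤ) (ZMod 4) := by
    refine ⟨fun x y => ⟨Multiplicative.ofAdd ((y - x).val : ℤ), ?_⟩⟩
    show (((y - x).val : ℤ) : ZMod 4) + x = y
    rw [Int.cast_natCast, ZMod.natCast_zmod_val]
    ring
  let μ : Measure (ZMod 4) := ProbabilityTheory.uniformOn Set.univ
  haveI pr : IsProbabilityMeasure μ :=
    ProbabilityTheory.isProbabilityMeasure_uniformOn (Set.toFinite _) Set.univ_nonempty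
  haveI inv : SMulInvariantMeasure (Multiplicative ℤ) (ZMod 4) μ := by
    refine ⟨fun c s _ => ?_⟩
    have h1 : ∀ t : Set (ZMod 4), μ t = Measure.count t / Measure.count (Set.univ : Set (ZMod 4)) := by
      intro t
      rw [ProbabilityTheory.uniformOn_univ]
      simp
    rw [h1, h1]
    congr 1
    have h2 : (fun x => c • x) ⁻¹' s = (MulAction.toPerm c).symm '' s := by
      rw [Equiv.image_symm_eq_preimage]; rfl
    rw [h2, Measure.count_injective_image (MulAction.toPerm c).symm.injective]
  haveI er : ErgodicSMul (Multiplicative ℤ) (ZMod 4) μ := ergodic μ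
  haveI m1 : MeasurableConstSMul (Multiplicative ℤ) (ZMod 4) := ⟨fun _ => Measurable.of_discrete⟩
  haveI m2 : MeasurableConstSMul (Multiplicative ℤ) (ZMod 2) := ⟨fun _ => Measurable.of_discrete⟩
  let π : ZMod 4 → ZMod 2 := ZMod.castHom (show 2 ∣ 4 by norm_num) (ZMod 2)
  have hG : ∀ (g : Multiplicative ℤ) (x : ZMod 4), π (g • x) = g • π x := by
    intro g x
    show (ZMod.castHom (show 2 ∣ 4 by norm_num) (ZMod 2))
        (((Multiplicative.toAdd g : ℤ) : ZMod 4) + x) =
      ((Multiplicative.toAdd g : ℤ) : ZMod 2) + (ZMod.castHom (show 2 ∣ 4 by norm_num) (ZMod 2)) x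
    rw [map_add, map_intCast]
  have h := hQ (Multiplicative ℤ) (ZMod 4) (ZMod 2) μ (μ.map π) π
    ⟨Measurable.of_discrete, hG, rfl⟩
  refine (atomic (G := Multiplicative ℤ) μ π hG ⟨0, 1, ?_⟩ ?_).ne h
  · decide
  · intro hinj
    have : (0 : ZMod 4) = 2 := hinj (by decide)
    exact absurd this (by decide)

/-- (1) For every group `G`, every transitive action of `G` on a finite set `X` with an invariant
probability measure, and every factor `Y` which is neither trivial nor isomorphic to `X` one has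
`h(X, μ) < h_{G,X}(Y) + h(X, μ | Σ)`. (2) The statement of Q1 is false. -/
theorem result :
    (∀ (G : Type) [Group G] (X Y : Type) [MulAction G X] [MulAction G Y] [Finite X]
      [mX : MeasurableSpace X] [DiscreteMeasurableSpace X] [mY : MeasurableSpace Y]
      [MeasurableSingletonClass Y] [MulAction.IsPretransitive G X]
      (μ : Measure X) [IsProbabilityMeasure μ] [SMulInvariantMeasure G X μ] (ν : Measure Y)
      (π : X → Y), IsFactor G μ ν π → (∃ x x', π x ≠ π x') → ¬ Function.Injective π →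
      rokhlin G μ < outerRokhlin G (mY.comap π) μ + relRokhlin G (mY.comap π) μ) ∧
    ¬ Q1 :=
  ⟨fun G _ X Y _ _ _ _ _ _ _ _ μ _ _ ν π hπ h1 h2 => atomic μ π hπ.equivariant h1 h2, not_Q1⟩

end Pool.Agent.Results.MP_0393a7_an.AtomicCounterexample
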